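import Pool.Agent.MP_5f72fe_nt.H45.TayRing

/-! Taylor expansion along a projective map close to the identity. -/

namespace Pool.Agent.MP_5f72fe_nt.H45

open Pool.Agent.MP_5f72fe_nt.H3

noncomputable section

/-- an affine function -/
def af (z L₁ L₂ : ℤ) (w : ℤ × ℤ) : ℤ := z + L₁ * w.1 + L₂ * w.2

theorem af_add (z L₁ L₂ : ℤ) (w x : ℤ × ℤ) :
    af z L₁ L₂ (w + x) = af z L₁ L₂ w + af 0 L₁ L₂ x := by
  simp only [af, Prod.fst_add, Prod.snd_add]; ring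

/-- commutation with multiplication by an affine function -/
def Der (z L₁ L₂ : ℤ) (a b : AA) : Prop :=
  ∀ κ : FF, (rho a fun w => (af z L₁ L₂ w : ZMod 3) * κ w) =
    (fun w => (af z L₁ L₂ w : ZMod 3) * rho a κ w) + rho b κ

section

variable {z L₁ L₂ : ℤ}

theorem Der.one : Der z L₁ L₂ 1 0 := fun κ => by
  rw [rho_one, rho_one, map_zero]; simp

theorem Der.mul {a b a' b' : AA} (h : Der z L₁ L₂ a b) (h' : Der z L₁ L₂ a' b') :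
    Der z L₁ L₂ (a * a') (a * b' + b * a') := fun κ => by
  rw [rho_mul, h' κ, map_add, h, rho_add, rho_mul, rho_mul, rho_mul]
  abel

theorem Der.pow {a b : AA} (h : Der z L₁ L₂ a b) (i : ℕ) :
    Der z L₁ L₂ (a ^ i) (i * a ^ (i - 1) * b) := by
  induction i with
  | zero => simpa using Der.one
  | succ i ih =>
    have h1 := ih.mul h
    have h2 : a ^ i * b + i * a ^ (i - 1) * b * a = ((i + 1 : ℕ) : AA) * a ^ (i + 1 - 1) * b := by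
      cases i with
      | zero => simp
      | succ i => simp only [Nat.add_sub_cancel]; push_cast; ring
    rw [h2, ← pow_succ] at h1
    exact h1

theorem Der.cen (y : ℤ × ℤ) :
    Der z L₁ L₂ (ee y - ee (-y)) ((af 0 L₁ L₂ y : ℤ) * (ee y + ee (-y))) := fun κ => by
  funext w
  have h : af 0 L₁ L₂ (-y) = -af 0 L₁ L₂ y := by simp only [af, Prod.fst_neg, Prod.snd_neg]; ring
  simp only [rho_sub, rho_add, rho_int, Pi.sub_apply, Pi.add_apply, rho_ee, af_add, h]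
  push_cast; ring

end

def B1 : AA := ee (1, 0) + ee (-(1, 0))

def B2 : AA := ee (0, 1) + ee (-(0, 1))

theorem C1_eq : C1 = ee (1, 0) - ee (-(1, 0)) := rfl

theorem C2_eq : C2 = ee (0, 1) - ee (-(0, 1)) := rfl

theorem der_cof (z L₁ L₂ : ℤ) (i j : ℕ) : Der z L₁ L₂ (C1 ^ i * C2 ^ j)
    (C1 ^ i * (j * C2 ^ (j - 1) * (L₂ * B2)) + i * C1 ^ (i - 1) * (L₁ * B1) * C2 ^ j) := by
  have h1 : Der z L₁ L₂ C1 (L₁ * B1) := by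
    have := Der.cen (z := z) (L₁ := L₁) (L₂ := L₂) (1, 0)
    rwa [show af 0 L₁ L₂ (1, 0) = L₁ by simp [af]] at this
  have h2 : Der z L₁ L₂ C2 (L₂ * B2) := by
    have := Der.cen (z := z) (L₁ := L₁) (L₂ := L₂) (0, 1)
    rwa [show af 0 L₁ L₂ (0, 1) = L₂ by simp [af]] at this
  exact (h1.pow i).mul (h2.pow j)

theorem cen_mem (y : ℤ × ℤ) : ee y - ee (-y) ∈ JJ 1 := by
  have := sub_mem (ee_one y) (ee_one (-y))
  rwa [sub_sub_sub_cancel_right] at this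

theorem cc_mem (i j : ℕ) : C1 ^ i * C2 ^ j ∈ JJ (i + j) := by
  have := JJ_mul _ _ _ _ (JJ_pow (cen_mem (1, 0)) i) (JJ_pow (cen_mem (0, 1)) j)
  rwa [mul_one, mul_one] at this

theorem cof_zero {m i j : ℕ} {ψ : FF} (h : Dlt m ψ) (hm : m ≤ i + j) : cof i j ψ = 0 := by
  rw [cof_eq, dlt_zero.1 (cc_mem i j 0 ψ (dlt_mono h (by omega)))]
  rfl

/-- the cube of a central difference -/
theorem cube_mem (x y t : ℤ × ℤ) :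
    (ee x + ee (-x)) * ((ee ((3 : ℤ) • y) - 1) * ee t) - (ee y - ee (-y)) ^ 3 ∈ JJ 4 := by
  have h1 := ee_cube y
  have h2 := ee_cube (-y)
  have h3 : ee ((3 : ℤ) • y) * ee ((3 : ℤ) • (-y)) = 1 := by
    rw [← ee_add, ← smul_add, add_neg_cancel, smul_zero, ee_zero]
  have h4 := JJ_mul 3 1 _ _ (ee_three y)
    (sub_mem (add_mem (ee_one (x + t)) (ee_one (-x + t))) (ee_one ((3 : ℤ) • (-y))))
  refine (congrArg (· ∈ JJ 4) ?_).mp h4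
  rw [ee_add, ee_add]
  linear_combination (-1 : AA) * h3 - h1 + h2 +
    (ee y ^ 2 - ee y - ee (-y) ^ 2 + ee (-y) - ee y ^ 2 * ee (-y) + ee y * ee (-y) ^ 2) * three

theorem term_mem (i j : ℕ) {P Q E : AA} (hP : P ∈ JJ 1) (hQ : Q ∈ JJ 1) (hE : E ∈ JJ 4) :
    i * P ^ (i - 1) * Q ^ j * E ∈ JJ (i + j + 3) := by
  cases i with
  | zero => simp
  | succ i =>
    have := JJ_mul _ _ _ _ (JJ_mul _ _ _ _ (JJ_left ((i + 1 : ℕ) : AA) (JJ_pow hP i)) (JJ_pow hQ j)) hE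
    rw [show i * 1 + j * 1 + 4 = i + 1 + j + 3 by omega] at this
    exact this

theorem pow_pred (i : ℕ) (P : AA) : i * P ^ (i + 2) = i * P ^ (i - 1) * P ^ 3 := by
  cases i with
  | zero => simp
  | succ i => simp only [Nat.add_sub_cancel]; ring

theorem shift_mem (t₁ t₂ : ℤ) : ee (t₁, t₂) - (1 - t₁ * C1 - t₂ * C2 - t₁ ^ 2 * C1 ^ 2 +
    t₁ * t₂ * C1 * C2 - t₂ ^ 2 * C2 ^ 2) ∈ JJ 3 := by
  have h : ((t₁, t₂) : ℤ × ℤ) = t₁ • ((1, 0) : ℤ × ℤ) + t₂ • ((0, 1) : ℤ × ℤ) := by ext <;> simp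
  have h1 := ee_quad (1, 0) t₁
  have h2 := ee_quad (0, 1) t₂
  rw [← C1_eq] at h1
  rw [← C2_eq] at h2
  have c1 : C1 ∈ JJ 1 := cen_mem (1, 0)
  have c2 : C2 ∈ JJ 1 := cen_mem (0, 1)
  have h3 : C1 * C2 * C2 ∈ JJ 3 := JJ_mul 2 1 _ _ (JJ_mul 1 1 _ _ c1 c2) c2
  have h4 : C1 * C2 * C1 ∈ JJ 3 := JJ_mul 2 1 _ _ (JJ_mul 1 1 _ _ c1 c2) c1
  have h5 := add_mem (add_mem (JJ_left (ee (t₂ • ((0, 1) : ℤ × ℤ))) h1)
    (JJ_left (1 - t₁ * C1 - t₁ ^ 2 * C1 ^ 2) h2))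
    (add_mem (JJ_left (t₁ * t₂ ^ 2 + t₁ ^ 2 * t₂ ^ 2 * C1) h3) (JJ_left (t₁ ^ 2 * t₂) h4))
  rw [h, ee_add]
  refine (congrArg (· ∈ JJ 3) ?_).mp h5
  ring

theorem big_mem (i j : ℕ) (z₁ z₂ t₁ t₂ L₁₁ L₁₂ L₂₁ L₂₂ : ℤ) :
    C1 ^ i * C2 ^ j * ee (t₁, t₂) +
      (z₁ * (C1 ^ i * C2 ^ j * (X3 * ee (t₁, t₂))) +
        (C1 ^ i * (j * C2 ^ (j - 1) * (L₁₂ * B2)) + i * C1 ^ (i - 1) * (L₁₁ * B1) * C2 ^ j) *
          (X3 * ee (t₁, t₂))) +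
      (z₂ * (C1 ^ i * C2 ^ j * (Y3 * ee (t₁, t₂))) +
        (C1 ^ i * (j * C2 ^ (j - 1) * (L₂₂ * B2)) + i * C1 ^ (i - 1) * (L₂₁ * B1) * C2 ^ j) *
          (Y3 * ee (t₁, t₂))) -
      (C1 ^ i * C2 ^ j - t₁ * (C1 ^ (i + 1) * C2 ^ j) - t₂ * (C1 ^ i * C2 ^ (j + 1)) -
        (t₁ ^ 2 : ℤ) * (C1 ^ (i + 2) * C2 ^ j) + (t₁ * t₂ : ℤ) * (C1 ^ (i + 1) * C2 ^ (j + 1)) -
        (t₂ ^ 2 : ℤ) * (C1 ^ i * C2 ^ (j + 2)) + (i * L₁₁ : ℤ) * (C1 ^ (i + 2) * C2 ^ j) +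
        (j * L₁₂ : ℤ) * (C1 ^ (i + 3) * C2 ^ (j - 1)) +
        (i * L₂₁ : ℤ) * (C1 ^ (i - 1) * C2 ^ (j + 3)) +
        (j * L₂₂ : ℤ) * (C1 ^ i * C2 ^ (j + 2))) ∈ JJ (i + j + 3) := by
  have c1 : C1 ∈ JJ 1 := cen_mem (1, 0)
  have c2 : C2 ∈ JJ 1 := cen_mem (0, 1)
  have a0 := JJ_mul _ _ _ _ (cc_mem i j) (shift_mem t₁ t₂)
  have x3 : X3 ∈ JJ 3 := ee_three _
  have y3 : Y3 ∈ JJ 3 := ee_three _
  have a1 := JJ_left (z₁ * ee (t₁, t₂)) (JJ_mul _ _ _ _ (cc_mem i j) x3)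
  have a2 := JJ_left (z₂ * ee (t₁, t₂)) (JJ_mul _ _ _ _ (cc_mem i j) y3)
  have e11 : B1 * (X3 * ee (t₁, t₂)) - C1 ^ 3 ∈ JJ 4 := cube_mem (1, 0) (1, 0) _
  have e12 : B2 * (X3 * ee (t₁, t₂)) - C1 ^ 3 ∈ JJ 4 := cube_mem (0, 1) (1, 0) _
  have e21 : B1 * (Y3 * ee (t₁, t₂)) - C2 ^ 3 ∈ JJ 4 := cube_mem (1, 0) (0, 1) _
  have e22 : B2 * (Y3 * ee (t₁, t₂)) - C2 ^ 3 ∈ JJ 4 := cube_mem (0, 1) (0, 1) _
  have a11 := JJ_left (L₁₁ : AA) (term_mem i j c1 c2 e11)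
  have a21 := JJ_left (L₂₁ : AA) (term_mem i j c1 c2 e21)
  have a12 := JJ_left (L₁₂ : AA) (term_mem j i c2 c1 e12)
  have a22 := JJ_left (L₂₂ : AA) (term_mem j i c2 c1 e22)
  rw [add_comm j i] at a12 a22
  have h := add_mem (add_mem (add_mem a0 a1) a2) (add_mem (add_mem a11 a21) (add_mem a12 a22))
  refine (congrArg (· ∈ JJ (i + j + 3)) ?_).mp h
  push_cast
  linear_combination (L₁₁ * C2 ^ j) * pow_pred i C1 + (L₂₂ * C1 ^ i) * pow_pred j C2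

theorem le_three_pow (s : ℕ) : s + 3 ≤ 3 ^ max s 2 := by
  rcases le_total s 2 with h | h
  · rw [max_eq_right h]; omega
  · rw [max_eq_left h]
    induction h with
    | refl => norm_num
    | step _ ih => rw [pow_succ]; omega

theorem S_KK (N : ℕ) : ∀ (r s : ℕ) (φ : ℤ × ℤ → ℤ × ℤ), s + 3 + r ≤ 3 ^ N →
    S (Z3 N) r s (fun w => (φ w).1) → S (Z3 N) r s (fun w => (φ w).2) →
    (∀ w, (φ w).1 ∈ Z3 N 2) → (∀ w, (φ w).2 ∈ Z3 N 2) → S KK r (s + 3) φ := by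
  have key : ∀ (s : ℕ) (x : ℤ × ℤ), s + 3 ≤ 3 ^ N → x.1 ∈ Z3 N s → x.2 ∈ Z3 N s → x.1 ∈ Z3 N 2 →
      x.2 ∈ Z3 N 2 → x ∈ KK (s + 3) := by
    intro s x hs h1 h2 h3 h4
    have h5 : x.1 ∈ Z3 N (max s 2) := by
      rcases max_choice s 2 with h | h <;> rw [h] <;> assumption
    have h6 : x.2 ∈ Z3 N (max s 2) := by
      rcases max_choice s 2 with h | h <;> rw [h] <;> assumption
    rw [mem_Z3] at h5 h6
    refine mem_KK.2 (JJ_le ?_ (ee_dvd h5 h6))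
    rcases min_choice (max s 2) N with h | h <;> rw [h]
    · exact le_three_pow s
    · exact hs
  intro r
  induction r with
  | zero => exact fun s φ hs h1 h2 h3 h4 w => key s _ hs (h1 w) (h2 w) (h3 w) (h4 w)
  | succ r ih =>
    intro s φ hs h1 h2 h3 h4
    exact ⟨fun w => key s _ (by omega) (h1.1 w) (h2.1 w) (h3 w) (h4 w), fun h =>
      ih (s + 1) _ (by omega) (h1.2 h) (h2.2 h) (fun w => sub_mem (h3 _) (h3 _))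
        fun w => sub_mem (h4 _) (h4 _)⟩

/-- the linear part to first order -/
theorem S_lin (r : ℕ) (z₁ z₂ L₁₁ L₁₂ L₂₁ L₂₂ : ℤ) :
    S JJ r 1 (fun w => ee ((3 : ℤ) • (af z₁ L₁₁ L₁₂ w, af z₂ L₂₁ L₂₂ w)) - 1) ∧
    S JJ r 3 fun w => ee ((3 : ℤ) • (af z₁ L₁₁ L₁₂ w, af z₂ L₂₁ L₂₂ w)) - 1 -
      (af z₁ L₁₁ L₁₂ w : ℤ) * X3 - (af z₂ L₂₁ L₂₂ w : ℤ) * Y3 := by
  have hadd : ∀ w h : ℤ × ℤ, (3 : ℤ) • (af z₁ L₁₁ L₁₂ (w + h), af z₂ L₂₁ L₂₂ (w + h)) =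
      (3 : ℤ) • (af z₁ L₁₁ L₁₂ w, af z₂ L₂₁ L₂₂ w) +
        (3 : ℤ) • (af 0 L₁₁ L₁₂ h, af 0 L₂₁ L₂₂ h) := fun w h => by
    rw [af_add, af_add, ← smul_add]; rfl
  have h1 : ∀ r, S JJ r 1 fun w => ee ((3 : ℤ) • (af z₁ L₁₁ L₁₂ w, af z₂ L₂₁ L₂₂ w)) - 1 := fun r =>
    S.exp JJ_mul JJ_mono (JJ_zero 1) ee ee_add KK (fun _ _ h => h)
      (S.aff (fun w => mem_KK.2 (ee_one _)) fun h => ⟨_, mem_KK.2 (JJ_le (by norm_num)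
        (ee_three (af 0 L₁₁ L₁₂ h, af 0 L₂₁ L₂₂ h))), fun w => by rw [hadd]; abel⟩)
  refine ⟨h1 r, ?_⟩
  have h0 : ∀ w : ℤ × ℤ, ee ((3 : ℤ) • (af z₁ L₁₁ L₁₂ w, af z₂ L₂₁ L₂₂ w)) - 1 -
      (af z₁ L₁₁ L₁₂ w : ℤ) * X3 - (af z₂ L₂₁ L₂₂ w : ℤ) * Y3 ∈ JJ 3 := fun w =>
    JJ_le (by norm_num) (ee_lin2 (af z₁ L₁₁ L₁₂ w, af z₂ L₂₁ L₂₂ w))
  cases r with
  | zero => exact h0
  | succ r =>
    refine ⟨h0, fun h => ?_⟩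
    have a1 := S.mul JJ_mul (h1 r) (S.const (ee_three (af 0 L₁₁ L₁₂ h, af 0 L₂₁ L₂₂ h)))
    have a2 : S JJ r (1 + 3) fun _ : ℤ × ℤ => ee ((3 : ℤ) • (af 0 L₁₁ L₁₂ h, af 0 L₂₁ L₂₂ h)) - 1 -
        (af 0 L₁₁ L₁₂ h : ℤ) * X3 - (af 0 L₂₁ L₂₂ h : ℤ) * Y3 :=
      S.const (JJ_le (by norm_num) (ee_lin2 (af 0 L₁₁ L₁₂ h, af 0 L₂₁ L₂₂ h)))
    refine (a1.add a2).congr fun w => ?_
    beta_reduce
    rw [hadd, ee_add, af_add z₁, af_add z₂]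
    push_cast; ring

theorem exists_z {u n t : ℤ} (hu : ¬ 3 ∣ u) (h : 3 ∣ n - u * t) : ∃ z, 9 ∣ n - u * (t + 3 * z) := by
  obtain ⟨c, hc⟩ := h
  have h1 : 3 ∣ u * u - 1 := by
    have : u % 3 = 1 ∨ u % 3 = 2 := by omega
    rcases this with h | h
    · rw [show u * u - 1 = (u - 1) * (u + 1) by ring]; exact Dvd.dvd.mul_right (by omega) _
    · rw [show u * u - 1 = (u - 1) * (u + 1) by ring]; exact Dvd.dvd.mul_left (by omega) _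
  obtain ⟨d, hd⟩ := h1
  exact ⟨u * c, -(c * d), by linear_combination hc - 3 * c * hd⟩

theorem rowTAY : OfTAY := by
  intro _ m N ψ g u l₁ l₂ n₁ n₂ n₁₁ n₁₂ n₂₁ n₂₂ t₁ t₂ L₁₁ L₁₂ L₂₁ L₂₂ hψ hm hu h1 h2 h11 h12 h21 h22
    g1 g2
  rcases Nat.eq_zero_or_pos m with rfl | hm0
  · have hc : ψ ∘ g = ψ := by
      funext w
      have := congrFun (dlt_zero.1 (ee_one (g w - w) 0 ψ hψ)) w
      rw [rho_sub, rho_one, Pi.sub_apply, rho_ee, add_sub_cancel, Pi.zero_apply, sub_eq_zero] at this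
      exact this
    rw [hc]
    refine ⟨hψ, fun i j _ => ?_⟩
    rw [cof_zero (i := i + 1) hψ (by omega), cof_zero (j := j + 1) hψ (by omega),
      cof_zero (i := i + 2) hψ (by omega), cof_zero (i := i + 1) hψ (by omega),
      cof_zero (j := j + 2) hψ (by omega), cof_zero (i := i + 3) hψ (by omega),
      cof_zero (j := j + 3) hψ (by omega)]
    ring
  have hN : 0 + 3 + (m - 2) ≤ 3 ^ N := by
    cases N with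
    | zero => omega
    | succ N =>
      have : 0 < 3 ^ N := by positivity
      rw [pow_succ] at *
      omega
  obtain ⟨z₁, hz₁⟩ := exists_z hu h1
  obtain ⟨z₂, hz₂⟩ := exists_z hu h2
  obtain ⟨r1, p1⟩ := rem N (m - 2) (fun w => (g w).1) u l₁ l₂ n₁ n₁₁ n₁₂ _ _ _ hu hz₁ h11 h12 g1
  obtain ⟨r2, p2⟩ := rem N (m - 2) (fun w => (g w).2) u l₁ l₂ n₂ n₂₁ n₂₂ _ _ _ hu hz₂ h21 h22 g2
  obtain ⟨φ, hφ⟩ : ∃ φ : ℤ × ℤ → ℤ × ℤ, ∀ w, φ w =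
      ((g w).1 - (t₁ + 3 * z₁ + (1 + 3 * L₁₁) * w.1 + 3 * L₁₂ * w.2),
        (g w).2 - (t₂ + 3 * z₂ + 3 * L₂₁ * w.1 + (1 + 3 * L₂₂) * w.2)) := ⟨_, fun _ => rfl⟩
  have s1 : S KK (m - 2) 3 φ := S_KK N (m - 2) 0 φ hN (r1.congr fun w => by rw [hφ])
    (r2.congr fun w => by rw [hφ]) (fun w => by rw [hφ]; exact p1 w) fun w => by rw [hφ]; exact p2 w
  have s2 := S.exp JJ_mul JJ_mono (JJ_zero 1) ee ee_add KK (fun _ _ h => h) s1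
  obtain ⟨s3, s4⟩ := S_lin (m - 2) z₁ z₂ L₁₁ L₁₂ L₂₁ L₂₂
  have s5 := (S.mono JJ_mono (Nat.zero_le 1) s3).add (S.const (JJ_zero 1))
  have s6 := S.mul JJ_mul (S.const (JJ_zero (ee (t₁, t₂)))) (s4.add (S.mul JJ_mul s5 s2))
  have d1 := dlt_diag _ _ _ ψ s6 (dlt_mono hψ (by omega))
  have s7 : S JJ (m + 1) 0 fun w => ee (t₁, t₂) + (af z₁ L₁₁ L₁₂ w : ℤ) * (X3 * ee (t₁, t₂)) +
      (af z₂ L₂₁ L₂₂ w : ℤ) * (Y3 * ee (t₁, t₂)) := by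
    refine S.aff (fun _ => JJ_zero _) fun h => ⟨(af 0 L₁₁ L₁₂ h : ℤ) * (X3 * ee (t₁, t₂)) +
      (af 0 L₂₁ L₂₂ h : ℤ) * (Y3 * ee (t₁, t₂)),
      add_mem (JJ_left _ (JJ_right _ (ee_one _))) (JJ_left _ (JJ_right _ (ee_one _))), fun w => ?_⟩
    rw [af_add z₁, af_add z₂]
    push_cast; ring
  have d2 := dlt_diag _ _ _ ψ s7 hψ
  have hdec : ψ ∘ g = (fun w => rho (ee (t₁, t₂) + (af z₁ L₁₁ L₁₂ w : ℤ) * (X3 * ee (t₁, t₂)) +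
      (af z₂ L₂₁ L₂₂ w : ℤ) * (Y3 * ee (t₁, t₂))) ψ w) + fun w => rho (ee (t₁, t₂) *
        (ee ((3 : ℤ) • (af z₁ L₁₁ L₁₂ w, af z₂ L₂₁ L₂₂ w)) - 1 -
          (af z₁ L₁₁ L₁₂ w : ℤ) * X3 - (af z₂ L₂₁ L₂₂ w : ℤ) * Y3 +
          (ee ((3 : ℤ) • (af z₁ L₁₁ L₁₂ w, af z₂ L₂₁ L₂₂ w)) - 1 + 1) * (ee (φ w) - 1))) ψ w := by
    funext w
    have hg : g w = w + ((t₁, t₂) + ((3 : ℤ) • (af z₁ L₁₁ L₁₂ w, af z₂ L₂₁ L₂₂ w) + φ w)) := by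
      rw [hφ]
      ext
      · simp only [af, Prod.fst_add, Prod.smul_mk, smul_eq_mul]; ring
      · simp only [af, Prod.snd_add, Prod.smul_mk, smul_eq_mul]; ring
    rw [Function.comp_apply, hg, ← rho_ee _ ψ, Pi.add_apply, ← Pi.add_apply (rho _ ψ), ← rho_add,
      ee_add, ee_add]
    refine congrArg (fun a => rho a ψ w) ?_
    ring
  refine ⟨by rw [hdec]; exact dlt_add d2 (dlt_mono d1 (by omega)), fun i j hij => ?_⟩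
  have z1 := cof_zero (i := i) (j := j) d1 (by omega)
  have hsplit : (fun w => rho (ee (t₁, t₂) + (af z₁ L₁₁ L₁₂ w : ℤ) * (X3 * ee (t₁, t₂)) +
      (af z₂ L₂₁ L₂₂ w : ℤ) * (Y3 * ee (t₁, t₂))) ψ w) = rho (ee (t₁, t₂)) ψ +
        (fun w => (af z₁ L₁₁ L₁₂ w : ZMod 3) * rho (X3 * ee (t₁, t₂)) ψ w) +
        fun w => (af z₂ L₂₁ L₂₂ w : ZMod 3) * rho (Y3 * ee (t₁, t₂)) ψ w := by
    funext w
    simp only [rho_add, rho_int, Pi.add_apply]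
  have hb := congrFun (dlt_zero.1 (big_mem i j z₁ z₂ t₁ t₂ L₁₁ L₁₂ L₂₁ L₂₂ 0 ψ
    (dlt_mono hψ (by omega)))) 0
  rw [cof_eq] at z1
  rw [hdec, cof_eq, map_add, Pi.add_apply, z1, add_zero, hsplit, map_add, map_add, der_cof, der_cof]
  simp only [cof_eq, ← rho_mul, Pi.add_apply]
  simp only [rho_sub, rho_add, rho_int, Pi.add_apply, Pi.sub_apply, Pi.zero_apply] at hb
  have a1 : af z₁ L₁₁ L₁₂ 0 = z₁ := by simp [af]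
  have a2 : af z₂ L₂₁ L₂₂ 0 = z₂ := by simp [af]
  rw [a1, a2]
  push_cast at hb
  linear_combination hb

end

end Pool.Agent.MP_5f72fe_nt.H45
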