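import Mathlib

/-! Functions whose iterated differences descend along a filtration. -/

namespace Pool.Agent.MP_5f72fe_nt.H45

section Gen

variable {G B : Type} [AddCommGroup G] [AddCommGroup B]

/-- the differences of order `s ≤ r` of `f` take values in `J (k + s)` -/
def S (J : ℕ → AddSubgroup B) : ℕ → ℕ → (G → B) → Prop
  | 0, k, f => ∀ w, f w ∈ J k
  | r + 1, k, f => (∀ w, f w ∈ J k) ∧ ∀ h, S J r (k + 1) fun w => f (w + h) - f w

variable {J : ℕ → AddSubgroup B}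

theorem S.pt {r k : ℕ} {f : G → B} (hf : S J r k f) : ∀ w, f w ∈ J k := by
  cases r with
  | zero => exact hf
  | succ r => exact hf.1

theorem S.down : ∀ {r k : ℕ} {f : G → B}, S J (r + 1) k f → S J r k f
  | 0, _, _, hf => hf.1
  | _ + 1, _, _, hf => ⟨hf.1, fun h => S.down (hf.2 h)⟩

theorem S.congr {r k : ℕ} {f g : G → B} (hf : S J r k f) (h : ∀ w, g w = f w) : S J r k g := by
  have : g = f := funext h
  rw [this]; exact hf

theorem S.add : ∀ {r k : ℕ} {f g : G → B}, S J r k f → S J r k g → S J r k fun w => f w + g w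
  | 0, _, _, _, hf, hg => fun w => add_mem (hf w) (hg w)
  | _ + 1, _, _, _, hf, hg => ⟨fun w => add_mem (hf.1 w) (hg.1 w), fun h =>
      (S.add (hf.2 h) (hg.2 h)).congr fun w => by beta_reduce; abel⟩

theorem S.neg : ∀ {r k : ℕ} {f : G → B}, S J r k f → S J r k fun w => -f w
  | 0, _, _, hf => fun w => neg_mem (hf w)
  | _ + 1, _, _, hf => ⟨fun w => neg_mem (hf.1 w), fun h =>
      (S.neg (hf.2 h)).congr fun w => by beta_reduce; abel⟩

theorem S.sub {r k : ℕ} {f g : G → B} (hf : S J r k f) (hg : S J r k g) :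
    S J r k fun w => f w - g w :=
  (hf.add hg.neg).congr fun w => by abel

theorem S.shift : ∀ {r k : ℕ} {f : G → B} (x : G), S J r k f → S J r k fun w => f (w + x)
  | 0, _, _, x, hf => fun w => hf (w + x)
  | _ + 1, _, f, x, hf => ⟨fun w => hf.1 (w + x), fun h =>
      (S.shift x (hf.2 h)).congr fun w => by rw [add_right_comm]⟩

theorem S.mono1 (hJ : ∀ k, J (k + 1) ≤ J k) :
    ∀ {r k : ℕ} {f : G → B}, S J r (k + 1) f → S J r k f
  | 0, k, _, hf => fun w => hJ k (hf w)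
  | _ + 1, k, _, hf => ⟨fun w => hJ k (hf.1 w), fun h => S.mono1 hJ (hf.2 h)⟩

theorem S.mono (hJ : ∀ k, J (k + 1) ≤ J k) {r k l : ℕ} {f : G → B} (hkl : k ≤ l)
    (hf : S J r l f) : S J r k f := by
  induction hkl with
  | refl => exact hf
  | step _ ih => exact ih (S.mono1 hJ hf)

theorem S.all : ∀ {r k : ℕ} {f : G → B}, (∀ w k, f w ∈ J k) → S J r k f
  | 0, k, _, hf => fun w => hf w k
  | _ + 1, k, _, hf => ⟨fun w => hf w k, fun h => S.all fun w k => sub_mem (hf (w + h) k) (hf w k)⟩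

theorem S.const {r k : ℕ} {c : B} (hc : c ∈ J k) : S J r k fun _ : G => c := by
  cases r with
  | zero => exact fun _ => hc
  | succ r => exact ⟨fun _ => hc, fun h => S.all fun w k => by simp⟩

theorem S.aff {r k : ℕ} {f : G → B} (h0 : ∀ w, f w ∈ J k)
    (h1 : ∀ h, ∃ c ∈ J (k + 1), ∀ w, f (w + h) - f w = c) : S J r k f := by
  cases r with
  | zero => exact h0
  | succ r =>
    refine ⟨h0, fun h => ?_⟩
    obtain ⟨c, hc, hw⟩ := h1 h
    exact (S.const hc).congr hw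

end Gen

section Mul

variable {G A : Type} [AddCommGroup G] [CommRing A] {J : ℕ → AddSubgroup A}

theorem S.mul (hm : ∀ k l a b, a ∈ J k → b ∈ J l → a * b ∈ J (k + l)) :
    ∀ {r k l : ℕ} {f g : G → A}, S J r k f → S J r l g → S J r (k + l) fun w => f w * g w
  | 0, _, _, _, _, hf, hg => fun w => hm _ _ _ _ (hf w) (hg w)
  | r + 1, k, l, f, g, hf, hg => ⟨fun w => hm _ _ _ _ (hf.1 w) (hg.1 w), fun h => by
      have h1 := S.mul hm (hf.2 h) (S.shift h hg.down)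
      have h2 := S.mul hm hf.down (hg.2 h)
      rw [show k + 1 + l = k + l + 1 by omega] at h1
      exact (S.add h1 h2).congr fun w => by ring⟩

/-- multiplicative differences control additive ones -/
theorem S.exp {H : Type} [AddCommGroup H] (hm : ∀ k l a b, a ∈ J k → b ∈ J l → a * b ∈ J (k + l))
    (hJ : ∀ k, J (k + 1) ≤ J k) (h1 : (1 : A) ∈ J 0) (e : H → A) (he : ∀ x y, e (x + y) = e x * e y)
    (K : ℕ → AddSubgroup H) (hK : ∀ k x, x ∈ K k → e x - 1 ∈ J k) :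
    ∀ {r k : ℕ} {φ : G → H}, S K r k φ → S J r k fun w => e (φ w) - 1
  | 0, k, _, hf => fun w => hK k _ (hf w)
  | r + 1, k, φ, hf => ⟨fun w => hK k _ (hf.1 w), fun h => by
      have a1 := S.exp hm hJ h1 e he K hK (hf.2 h)
      have a2 : S J r 0 fun w => e (φ w) - 1 :=
        S.mono hJ (Nat.zero_le k) (S.exp hm hJ h1 e he K hK hf.down)
      have a3 : S J r 0 fun w => e (φ w) := (a2.add (S.const h1)).congr fun w => by ring
      have a4 := S.mul hm a3 a1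
      rw [zero_add] at a4
      refine a4.congr fun w => ?_
      have : e (φ (w + h)) = e (φ w) * e (φ (w + h) - φ w) := by
        rw [← he]; congr 1; abel
      beta_reduce
      rw [this]; ring⟩

end Mul

section Int

/-- multiples of `3 ^ min k N` -/
def Z3 (N k : ℕ) : AddSubgroup ℤ := AddSubgroup.zmultiples ((3 : ℤ) ^ min k N)

theorem mem_Z3 {N k : ℕ} {x : ℤ} : x ∈ Z3 N k ↔ (3 : ℤ) ^ min k N ∣ x := by
  unfold Z3; exact Int.mem_zmultiples_iff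

theorem Z3_mul (N : ℕ) (k l : ℕ) (a b : ℤ) (ha : a ∈ Z3 N k) (hb : b ∈ Z3 N l) :
    a * b ∈ Z3 N (k + l) := by
  rw [mem_Z3] at *
  refine dvd_trans (pow_dvd_pow 3 ?_) ((pow_add (3 : ℤ) _ _).symm ▸ mul_dvd_mul ha hb)
  omega

theorem Z3_mono (N k : ℕ) : Z3 N (k + 1) ≤ Z3 N k := fun x hx => by
  rw [mem_Z3] at *
  exact dvd_trans (pow_dvd_pow 3 (by omega)) hx

theorem Z3_one (N : ℕ) (x : ℤ) : 3 * x ∈ Z3 N 1 := by
  rw [mem_Z3]
  exact dvd_trans (pow_dvd_pow 3 (min_le_left 1 N)) (by simp)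

theorem Z3_zero (N : ℕ) (x : ℤ) : x ∈ Z3 N 0 := by
  rw [mem_Z3]; simp

/-- division by a unit -/
theorem S_div (N : ℕ) (l₁ l₂ : ℤ) : ∀ (r k : ℕ) (u : ℤ) (φ : ℤ × ℤ → ℤ), ¬ 3 ∣ u →
    S (Z3 N) r k (fun w => (u + 9 * (l₁ * w.1 + l₂ * w.2)) * φ w) → S (Z3 N) r k φ := by
  have key : ∀ (k : ℕ) (u : ℤ) (φ : ℤ × ℤ → ℤ), ¬ 3 ∣ u →
      (∀ w : ℤ × ℤ, (u + 9 * (l₁ * w.1 + l₂ * w.2)) * φ w ∈ Z3 N k) → ∀ w, φ w ∈ Z3 N k := by
    intro k u φ hu h w
    have h1 := h w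
    rw [mem_Z3] at *
    refine IsCoprime.dvd_of_dvd_mul_left ?_ h1
    apply IsCoprime.pow_left
    rw [Int.prime_three.irreducible.coprime_iff_not_dvd]
    intro h3
    apply hu
    have : (3 : ℤ) ∣ 9 * (l₁ * w.1 + l₂ * w.2) := Dvd.dvd.mul_right (by norm_num) _
    exact (dvd_add_left this).1 h3
  intro r
  induction r with
  | zero => intro k u φ hu h; exact key k u φ hu h
  | succ r ih =>
    intro k u φ hu h
    refine ⟨key k u φ hu h.1, fun x => ?_⟩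
    have h0 : S (Z3 N) r k φ := ih k u φ hu h.down
    have h1 : S (Z3 N) r (1 + k) fun w => 3 * (3 * (l₁ * x.1 + l₂ * x.2)) * φ w :=
      S.mul (Z3_mul N) (S.const (Z3_one N _)) h0
    rw [add_comm] at h1
    refine ih (k + 1) (u + 9 * (l₁ * x.1 + l₂ * x.2)) _ ?_ (((h.2 x).sub h1).congr fun w => ?_)
    · intro h3
      apply hu
      have : (3 : ℤ) ∣ 9 * (l₁ * x.1 + l₂ * x.2) := Dvd.dvd.mul_right (by norm_num) _
      exact (dvd_add_left this).1 h3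
    · simp only [Prod.fst_add, Prod.snd_add]; ring

theorem S_aff3 (N r : ℕ) (c₀ c₁ c₂ : ℤ) :
    S (Z3 N) r 0 fun w : ℤ × ℤ => 3 * (c₀ + c₁ * w.1 + c₂ * w.2) :=
  S.aff (fun _ => Z3_zero N _) fun h => ⟨3 * (c₁ * h.1 + c₂ * h.2), Z3_one N _, fun w => by
    simp only [Prod.fst_add, Prod.snd_add]; ring⟩

/-- the remainder of one coordinate of the projective map -/
theorem rem (N r : ℕ) (G : ℤ × ℤ → ℤ) (u l₁ l₂ n n₁ n₂ c₀ c₁ c₂ : ℤ) (hu : ¬ 3 ∣ u)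
    (h0 : 9 ∣ n - u * c₀) (h1 : 9 ∣ n₁ - u * c₁) (h2 : 9 ∣ n₂ - u * c₂)
    (h : ∀ w : ℤ × ℤ, (3 : ℤ) ^ N ∣
      (u + 9 * (l₁ * w.1 + l₂ * w.2)) * G w - (n + n₁ * w.1 + n₂ * w.2)) :
    S (Z3 N) r 0 (fun w => G w - (c₀ + c₁ * w.1 + c₂ * w.2)) ∧
      ∀ w, G w - (c₀ + c₁ * w.1 + c₂ * w.2) ∈ Z3 N 2 := by
  obtain ⟨d₀, e0⟩ := h0
  obtain ⟨d₁, e1⟩ := h1
  obtain ⟨d₂, e2⟩ := h2
  have hall : ∀ (w : ℤ × ℤ) k,
      (u + 9 * (l₁ * w.1 + l₂ * w.2)) * G w - (n + n₁ * w.1 + n₂ * w.2) ∈ Z3 N k := fun w k => by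
    rw [mem_Z3]; exact dvd_trans (pow_dvd_pow 3 (min_le_right k N)) (h w)
  have hid : ∀ w : ℤ × ℤ, (u + 9 * (l₁ * w.1 + l₂ * w.2)) * (G w - (c₀ + c₁ * w.1 + c₂ * w.2)) =
      ((u + 9 * (l₁ * w.1 + l₂ * w.2)) * G w - (n + n₁ * w.1 + n₂ * w.2)) +
        (3 * (1 + 0 * w.1 + 0 * w.2) * (3 * (d₀ + d₁ * w.1 + d₂ * w.2)) -
          3 * (0 + l₁ * w.1 + l₂ * w.2) * (3 * (c₀ + c₁ * w.1 + c₂ * w.2))) := fun w => by
    linear_combination e0 + w.1 * e1 + w.2 * e2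
  constructor
  · refine S_div N l₁ l₂ r 0 u _ hu (S.congr ?_ hid)
    exact (S.all hall).add ((S.mul (Z3_mul N) (S_aff3 N r _ _ _) (S_aff3 N r _ _ _)).sub
      (S.mul (Z3_mul N) (S_aff3 N r _ _ _) (S_aff3 N r _ _ _)))
  · refine S.pt (r := 0) (S_div N l₁ l₂ 0 2 u _ hu (S.congr ?_ hid))
    intro w
    exact add_mem (hall w 2) (sub_mem (Z3_mul N 1 1 _ _ (Z3_one N _) (Z3_one N _))
      (Z3_mul N 1 1 _ _ (Z3_one N _) (Z3_one N _)))

end Int

end Pool.Agent.MP_5f72fe_nt.H45
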