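import Pool.Agent.MP_5f72fe_nt.H3.SpecC
import Pool.Agent.MP_5f72fe_nt.H45.TayGen

/-! The group ring of `ℤ × ℤ` over `ZMod 3` acting on functions, and its degree filtration. -/

namespace Pool.Agent.MP_5f72fe_nt.H45

open Pool.Agent.MP_5f72fe_nt.H3

noncomputable section

abbrev FF : Type := ℤ × ℤ → ZMod 3

abbrev AA : Type := AddMonoidAlgebra (ZMod 3) (ℤ × ℤ)

/-- the shift -/
def sh (x : ℤ × ℤ) : Module.End (ZMod 3) FF where
  toFun ψ := fun w => ψ (w + x)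
  map_add' _ _ := rfl
  map_smul' _ _ := rfl

def shHom : Multiplicative (ℤ × ℤ) →* Module.End (ZMod 3) FF where
  toFun x := sh x.toAdd
  map_one' := LinearMap.ext fun ψ => funext fun w => by simp [sh]
  map_mul' x y := LinearMap.ext fun ψ => funext fun w => by simp [sh, add_assoc]

/-- the action of the group ring -/
def rho : AA →ₐ[ZMod 3] Module.End (ZMod 3) FF := AddMonoidAlgebra.lift (ZMod 3) _ _ shHom

def ee (x : ℤ × ℤ) : AA := AddMonoidAlgebra.single x 1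

theorem ee_add (x y : ℤ × ℤ) : ee (x + y) = ee x * ee y := by
  simp [ee, AddMonoidAlgebra.single_mul_single]

theorem ee_zero : ee 0 = 1 := rfl

theorem rho_ee (x : ℤ × ℤ) (ψ : FF) (w : ℤ × ℤ) : rho (ee x) ψ w = ψ (w + x) := by
  simp [rho, ee, shHom, sh]

theorem three : (3 : AA) = 0 := by
  have h : (3 : AA) = algebraMap (ZMod 3) AA 3 := (map_ofNat _ 3).symm
  rw [h, show (3 : ZMod 3) = 0 from rfl, map_zero]

theorem rho_mul (a b : AA) (ψ : FF) : rho (a * b) ψ = rho a (rho b ψ) := by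
  rw [map_mul]; rfl

theorem rho_add (a b : AA) (ψ : FF) : rho (a + b) ψ = rho a ψ + rho b ψ := by
  rw [map_add]; rfl

theorem rho_sub (a b : AA) (ψ : FF) : rho (a - b) ψ = rho a ψ - rho b ψ := by
  rw [map_sub]; rfl

theorem rho_one (ψ : FF) : rho 1 ψ = ψ := by
  rw [map_one]; rfl

theorem rho_int (n : ℤ) (a : AA) (ψ : FF) (w : ℤ × ℤ) :
    rho (n * a) ψ w = n * rho a ψ w := by
  rw [← zsmul_eq_mul, map_zsmul, ← zsmul_eq_mul]; rfl

theorem iter_rho (a : AA) (T : FF → FF) (hT : ∀ ψ, T ψ = rho a ψ) (i : ℕ) (ψ : FF) :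
    T^[i] ψ = rho (a ^ i) ψ := by
  induction i generalizing ψ with
  | zero => simp
  | succ i ih => rw [Function.iterate_succ_apply, ih, hT, pow_succ, rho_mul]

def XX : AA := ee (1, 0) - 1

def YY : AA := ee (0, 1) - 1

def C1 : AA := ee (1, 0) - ee (-1, 0)

def C2 : AA := ee (0, 1) - ee (0, -1)

theorem df1_eq (ψ : FF) : df1 ψ = rho XX ψ := by
  funext w
  rw [XX, rho_sub, rho_one, Pi.sub_apply, rho_ee, df1]
  congr 2
  ext <;> simp

theorem df2_eq (ψ : FF) : df2 ψ = rho YY ψ := by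
  funext w
  rw [YY, rho_sub, rho_one, Pi.sub_apply, rho_ee, df2]
  congr 2
  ext <;> simp

theorem dc1_eq (ψ : FF) : dc1 ψ = rho C1 ψ := by
  funext w
  rw [C1, rho_sub, Pi.sub_apply, rho_ee, rho_ee, dc1]
  congr 2 <;> ext <;> simp [sub_eq_add_neg]

theorem dc2_eq (ψ : FF) : dc2 ψ = rho C2 ψ := by
  funext w
  rw [C2, rho_sub, Pi.sub_apply, rho_ee, rho_ee, dc2]
  congr 2 <;> ext <;> simp [sub_eq_add_neg]

theorem dlt_iff (m : ℕ) (ψ : FF) :
    Dlt m ψ ↔ ∀ i j : ℕ, m ≤ i + j → rho (XX ^ i * YY ^ j) ψ = 0 := by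
  unfold Dlt
  simp only [iter_rho XX df1 df1_eq, iter_rho YY df2 df2_eq, rho_mul]

theorem cof_eq (i j : ℕ) (ψ : FF) : cof i j ψ = rho (C1 ^ i * C2 ^ j) ψ 0 := by
  unfold cof
  rw [iter_rho C1 dc1 dc1_eq, iter_rho C2 dc2 dc2_eq, rho_mul]
  rfl

theorem dlt_mono {m n : ℕ} {ψ : FF} (h : Dlt m ψ) (hmn : m ≤ n) : Dlt n ψ :=
  fun i j hij => h i j (hmn.trans hij)

theorem dlt_zero {ψ : FF} : Dlt 0 ψ ↔ ψ = 0 := by
  rw [dlt_iff]
  refine ⟨fun h => by simpa using h 0 0 le_rfl, fun h i j _ => by rw [h, map_zero]⟩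

theorem dlt_add {m : ℕ} {ψ χ : FF} (h : Dlt m ψ) (h' : Dlt m χ) : Dlt m (ψ + χ) := by
  rw [dlt_iff] at *
  intro i j hij
  rw [map_add, h i j hij, h' i j hij, add_zero]

theorem dlt_smul {m : ℕ} {ψ : FF} (c : ZMod 3) (h : Dlt m ψ) : Dlt m (c • ψ) := by
  rw [dlt_iff] at *
  intro i j hij
  rw [map_smul, h i j hij, smul_zero]

theorem dlt_rho {m : ℕ} {ψ : FF} (a : AA) (h : Dlt m ψ) : Dlt m (rho a ψ) := by
  rw [dlt_iff] at *
  intro i j hij
  rw [← rho_mul, mul_comm, rho_mul, h i j hij, map_zero]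

/-- the elements lowering the degree by `k` -/
def JJ (k : ℕ) : AddSubgroup AA where
  carrier := {a | ∀ (m : ℕ) (ψ : FF), Dlt (m + k) ψ → Dlt m (rho a ψ)}
  zero_mem' := fun m ψ _ => by
    rw [map_zero]; exact dlt_mono (dlt_zero.2 rfl) (Nat.zero_le m)
  add_mem' := fun {a b} ha hb m ψ h => by
    rw [rho_add]; exact dlt_add (ha m ψ h) (hb m ψ h)
  neg_mem' := fun {a} ha m ψ h => by
    rw [← neg_one_mul, rho_mul]; exact dlt_rho _ (ha m ψ h)

theorem mem_JJ {k : ℕ} {a : AA} :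
    a ∈ JJ k ↔ ∀ (m : ℕ) (ψ : FF), Dlt (m + k) ψ → Dlt m (rho a ψ) := Iff.rfl

theorem JJ_zero (a : AA) : a ∈ JJ 0 := fun _ _ h => dlt_rho a h

theorem JJ_mul (k l : ℕ) (a b : AA) (ha : a ∈ JJ k) (hb : b ∈ JJ l) : a * b ∈ JJ (k + l) :=
  fun m ψ h => by
    rw [rho_mul]
    exact ha m _ (hb (m + k) ψ (by rwa [add_assoc]))

theorem JJ_le {k l : ℕ} {a : AA} (hkl : k ≤ l) (ha : a ∈ JJ l) : a ∈ JJ k :=
  fun m ψ h => ha m ψ (dlt_mono h (by omega))

theorem JJ_mono (k : ℕ) : JJ (k + 1) ≤ JJ k := fun _ ha => JJ_le (Nat.le_succ k) ha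

theorem JJ_left {k : ℕ} (b : AA) {a : AA} (ha : a ∈ JJ k) : b * a ∈ JJ k := by
  simpa using JJ_mul 0 k b a (JJ_zero b) ha

theorem JJ_right {k : ℕ} (b : AA) {a : AA} (ha : a ∈ JJ k) : a * b ∈ JJ k := by
  rw [mul_comm]; exact JJ_left b ha

theorem JJ_pow {k : ℕ} {a : AA} (ha : a ∈ JJ k) (n : ℕ) : a ^ n ∈ JJ (n * k) := by
  induction n with
  | zero => simpa using JJ_zero 1
  | succ n ih => rw [pow_succ, add_mul, one_mul]; exact JJ_mul _ _ _ _ ih ha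

theorem XX_mem : XX ∈ JJ 1 := fun m ψ h => by
  rw [dlt_iff] at *
  intro i j hij
  rw [← rho_mul, show XX ^ i * YY ^ j * XX = XX ^ (i + 1) * YY ^ j by ring]
  exact h _ _ (by omega)

theorem YY_mem : YY ∈ JJ 1 := fun m ψ h => by
  rw [dlt_iff] at *
  intro i j hij
  rw [← rho_mul, show XX ^ i * YY ^ j * YY = XX ^ i * YY ^ (j + 1) by ring]
  exact h _ _ (by omega)

/-- the shifts that are the identity up to order `k` -/
def KK (k : ℕ) : AddSubgroup (ℤ × ℤ) where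
  carrier := {x | ee x - 1 ∈ JJ k}
  zero_mem' := by
    change ee 0 - 1 ∈ JJ k
    rw [ee_zero, sub_self]; exact zero_mem _
  add_mem' := fun {x y} hx hy => by
    change ee (x + y) - 1 ∈ JJ k
    rw [show ee (x + y) - 1 = ee x * (ee y - 1) + (ee x - 1) by rw [ee_add]; ring]
    exact add_mem (JJ_left _ hy) hx
  neg_mem' := fun {x} hx => by
    change ee (-x) - 1 ∈ JJ k
    have h : ee (-x) * ee x = 1 := by rw [← ee_add, neg_add_cancel, ee_zero]
    rw [show ee (-x) - 1 = -ee (-x) * (ee x - 1) by linear_combination h]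
    exact JJ_left _ hx

theorem mem_KK {k : ℕ} {x : ℤ × ℤ} : x ∈ KK k ↔ ee x - 1 ∈ JJ k := Iff.rfl

theorem ee_one (x : ℤ × ℤ) : ee x - 1 ∈ JJ 1 := by
  have h : x = x.1 • ((1, 0) : ℤ × ℤ) + x.2 • ((0, 1) : ℤ × ℤ) := by ext <;> simp
  rw [← mem_KK, h]
  exact add_mem (zsmul_mem (mem_KK.2 XX_mem) _) (zsmul_mem (mem_KK.2 YY_mem) _)

theorem ee_cube (x : ℤ × ℤ) : ee ((3 : ℤ) • x) - 1 = (ee x - 1) ^ 3 := by
  have h : (3 : ℤ) • x = x + x + x := by module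
  rw [h, ee_add, ee_add]
  linear_combination (ee x ^ 2 - ee x) * three

theorem ee_pow (c : ℕ) (x : ℤ × ℤ) : ee ((3 : ℤ) ^ c • x) - 1 ∈ JJ (3 ^ c) := by
  induction c with
  | zero => simpa using ee_one x
  | succ c ih =>
    rw [pow_succ' (3 : ℤ), mul_smul, ee_cube, pow_succ']
    exact JJ_pow ih 3

theorem ee_three (x : ℤ × ℤ) : ee ((3 : ℤ) • x) - 1 ∈ JJ 3 := by
  simpa using ee_pow 1 x

theorem ee_dvd {c : ℕ} {x : ℤ × ℤ} (h1 : (3 : ℤ) ^ c ∣ x.1) (h2 : (3 : ℤ) ^ c ∣ x.2) :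
    ee x - 1 ∈ JJ (3 ^ c) := by
  obtain ⟨a, ha⟩ := h1
  obtain ⟨b, hb⟩ := h2
  have : x = (3 : ℤ) ^ c • (a, b) := by ext <;> simp [ha, hb]
  rw [this]; exact ee_pow c _

theorem dlt_succ {m : ℕ} {ψ : FF} (h : ∀ x, Dlt m (rho (ee x - 1) ψ)) : Dlt (m + 1) ψ := by
  rw [dlt_iff]
  intro i j hij
  cases i with
  | zero =>
    obtain ⟨j, rfl⟩ : ∃ j', j = j' + 1 := ⟨j - 1, by omega⟩
    have := (dlt_iff _ _).1 (h (0, 1)) 0 j (by omega)
    rw [← rho_mul] at this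
    rw [← this, YY]; congr 2; ring
  | succ i =>
    have := (dlt_iff _ _).1 (h (1, 0)) i j (by omega)
    rw [← rho_mul] at this
    rw [← this, XX]; congr 2; ring

/-- the diagonal of a family of operators -/
theorem dlt_diag : ∀ (m k : ℕ) (f : ℤ × ℤ → AA) (χ : FF), S JJ m k f → Dlt (m + k) χ →
    Dlt m fun w => rho (f w) χ w := by
  intro m
  induction m with
  | zero =>
    intro k f χ hf hχ
    rw [dlt_zero]
    funext w
    have := dlt_zero.1 (hf w 0 χ hχ)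
    rw [this]
  | succ m ih =>
    intro k f χ hf hχ
    refine dlt_succ fun x => ?_
    have h1 : S JJ m (0 + (k + 1)) fun w => ee x * (f (w + x) - f w) :=
      S.mul JJ_mul (S.const (JJ_zero _)) (hf.2 x)
    have h2 : S JJ m (1 + k) fun w => (ee x - 1) * f w :=
      S.mul JJ_mul (S.const (ee_one x)) hf.down
    rw [zero_add] at h1
    rw [add_comm] at h2
    have h3 := ih (k + 1) _ χ (h1.add h2) (by rwa [show m + (k + 1) = m + 1 + k by omega])
    have h4 : (rho (ee x - 1) fun w => rho (f w) χ w) =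
        fun w => rho (ee x * (f (w + x) - f w) + (ee x - 1) * f w) χ w := by
      funext w
      rw [show ee x * (f (w + x) - f w) + (ee x - 1) * f w = ee x * f (w + x) - f w by ring,
        rho_sub, rho_sub, rho_one, rho_mul, Pi.sub_apply, Pi.sub_apply, rho_ee, rho_ee]
    rw [h4]; exact h3

/-- shifts by multiples of `3` are additive to first order -/
theorem ee_lin (y : ℤ × ℤ) (n : ℤ) :
    ee ((3 : ℤ) • n • y) - 1 - n * (ee ((3 : ℤ) • y) - 1) ∈ JJ 6 := by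
  induction n using Int.induction_on with
  | zero => simp [ee_zero]
  | succ n ih =>
    have h : (3 : ℤ) • ((n : ℤ) + 1) • y = (3 : ℤ) • (n : ℤ) • y + (3 : ℤ) • y := by module
    have := add_mem ih (JJ_mul 3 3 _ _ (ee_three ((n : ℤ) • y)) (ee_three y))
    rw [h, ee_add]
    refine (congrArg (· ∈ JJ 6) ?_).mp this
    push_cast; ring
  | pred n ih =>
    have h : (3 : ℤ) • (-(n : ℤ)) • y = (3 : ℤ) • (-(n : ℤ) - 1) • y + (3 : ℤ) • y := by module
    have := sub_mem ih (JJ_mul 3 3 _ _ (ee_three ((-(n : ℤ) - 1) • y)) (ee_three y))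
    rw [h, ee_add] at this
    refine (congrArg (· ∈ JJ 6) ?_).mp this
    push_cast; ring

def X3 : AA := ee ((3 : ℤ) • (1, 0)) - 1

def Y3 : AA := ee ((3 : ℤ) • (0, 1)) - 1

theorem ee_lin2 (x : ℤ × ℤ) : ee ((3 : ℤ) • x) - 1 - x.1 * X3 - x.2 * Y3 ∈ JJ 6 := by
  have h : (3 : ℤ) • x = (3 : ℤ) • x.1 • ((1, 0) : ℤ × ℤ) + (3 : ℤ) • x.2 • ((0, 1) : ℤ × ℤ) := by
    ext <;> simp
  have := add_mem (add_mem (ee_lin (1, 0) x.1) (ee_lin (0, 1) x.2))
    (JJ_mul 3 3 _ _ (ee_three (x.1 • ((1, 0) : ℤ × ℤ))) (ee_three (x.2 • ((0, 1) : ℤ × ℤ))))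
  rw [h, ee_add]
  refine (congrArg (· ∈ JJ 6) ?_).mp this
  rw [X3, Y3]; ring

/-- the shift by `t` to second order -/
theorem ee_quad (y : ℤ × ℤ) (t : ℤ) :
    ee (t • y) - (1 - t * (ee y - ee (-y)) - t ^ 2 * (ee y - ee (-y)) ^ 2) ∈ JJ 3 := by
  have hinv : ee y * ee (-y) = 1 := by rw [← ee_add, add_neg_cancel, ee_zero]
  have hc : ee ((3 : ℤ) • y) = ee y ^ 3 := by
    have h : (3 : ℤ) • y = y + y + y := by module
    rw [h, ee_add, ee_add]; ring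
  have h3 : ee y ^ 3 - 1 ∈ JJ 3 := hc ▸ ee_three y
  obtain ⟨q, s, hs, rfl⟩ : ∃ q s : ℤ, (s = 0 ∨ s = 1 ∨ s = -1) ∧ t = s + 3 * q :=
    ⟨(t + 1) / 3, (t + 1) % 3 - 1, by omega, by omega⟩
  have h : (s + 3 * q) • y = s • y + (3 : ℤ) • q • y := by module
  have h0 : ee (s • y) - (1 - s * (ee y - ee (-y)) - s ^ 2 * (ee y - ee (-y)) ^ 2) ∈ JJ 3 := by
    rcases hs with rfl | rfl | rfl
    · simp [ee_zero]
    · refine (congrArg (· ∈ JJ 3) ?_).mp (JJ_left (ee (-y) ^ 2 * (ee y - 1)) h3)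
      rw [one_smul]
      push_cast
      linear_combination (ee y ^ 2 * (ee y * ee (-y) + 1) - ee y * (ee y * ee (-y) + 1) - ee (-y) + 2) * hinv +
        (1 - ee y) * three
    · refine (congrArg (· ∈ JJ 3) ?_).mp (JJ_left (ee (-y) ^ 2 * (ee y - 1)) h3)
      rw [neg_one_smul]
      push_cast
      linear_combination (ee y ^ 2 * (ee y * ee (-y) + 1) - ee y * (ee y * ee (-y) + 1) - ee (-y) + 2) * hinv +
        (1 - ee (-y)) * three
  have := add_mem h0 (JJ_left (ee (s • y)) (ee_three (q • y)))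
  rw [h, ee_add]
  refine (congrArg (· ∈ JJ 3) ?_).mp this
  push_cast
  linear_combination (-(q * (ee y - ee (-y))) - (2 * s * q + 3 * q ^ 2) * (ee y - ee (-y)) ^ 2) * three

end

end Pool.Agent.MP_5f72fe_nt.H45
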